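import Pool.Agent.K.MP_098a67_ag.C2

namespace Pool.Agent.Results.MP_098a67_ag.Cubic

/-- The maximal rank of complex `n × n × n` tensors is `n ^ 2 / 3 + O(n ^ (3/2))`. -/
theorem result (n : ℕ) (hn : 1 ≤ n) :
    ∃ m : ℕ, IsLeast {r : ℕ | ∀ X : Fin n → Fin n → Fin n → ℂ, ∃ a b c : Fin r → Fin n → ℂ,
        ∀ i j k, X i j k = ∑ l, a l i * b l j * c l k} m ∧
      (n : ℝ) ^ 2 / 3 ≤ m ∧ (m : ℝ) ≤ (n : ℝ) ^ 2 / 3 + 7 * n * √n :=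
  Pool.Agent.P.MP_098a67_ag.cubic n hn

end Pool.Agent.Results.MP_098a67_ag.Cubic
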