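import Pool.Agent.K.MP_098a67_ag.C3

namespace Pool.Agent.Results.MP_098a67_ag.ThreeSlicesAll

/-- The maximal rank of complex `a × b × 3` tensors, up to a bounded error. -/
theorem result (a b : ℕ) (hab : a ≤ b) :
    ∃ m : ℕ, IsLeast {r : ℕ | ∀ X : Fin a → Fin b → Fin 3 → ℂ, ∃ (u : Fin r → Fin a → ℂ)
        (v : Fin r → Fin b → ℂ) (w : Fin r → Fin 3 → ℂ),
        ∀ i j k, X i j k = ∑ l, u l i * v l j * w l k} m ∧
      min (4 * a + 3 * b) (min (6 * a + 2 * b) (12 * a)) ≤ 4 * m + 3 ∧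
      4 * m ≤ min (4 * a + 3 * b) (min (6 * a + 2 * b) (12 * a)) + 67 :=
  Pool.Agent.P.MP_098a67_ag.R3.three a b hab

end Pool.Agent.Results.MP_098a67_ag.ThreeSlicesAll
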