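import Pool.Agent.K.MP_098a67_ag.C4

namespace Pool.Agent.Results.MP_098a67_ag.Uniform

/-- The maximal rank of complex tensors of format `n 0 × ⋯ × n (d-1)` is the expected generic
rank up to a factor `1 + 4 / K`, for every order `d`, as soon as the numbers `n i - 1` outside any
two places add up to at least `8000 K ^ 6`. -/
theorem result (K : ℕ) (hK : 1 ≤ K) (d : ℕ) (n : Fin d → ℕ) (hn : ∀ i, 1 ≤ n i)
    (h : ∀ J : Finset (Fin d), J.card ≤ 2 → 8000 * K ^ 6 ≤ ∑ i ∈ Jᶜ, (n i - 1)) :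
    ∃ m : ℕ, IsLeast {r : ℕ | ∀ X : (∀ i, Fin (n i)) → ℂ,
        ∃ v : Fin r → ∀ i, Fin (n i) → ℂ, ∀ j, X j = ∑ k, ∏ i, v k i (j i)} m ∧
      (∏ i, (n i : ℝ)) / (1 + ∑ i, ((n i : ℝ) - 1)) ≤ m ∧
      (m : ℝ) ≤ (1 + 4 / K) * ((∏ i, (n i : ℝ)) / (1 + ∑ i, ((n i : ℝ) - 1))) :=
  Pool.Agent.P.MP_098a67_ag.uniform K hK d n hn h

end Pool.Agent.Results.MP_098a67_ag.Uniform
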