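import Pool.Agent.K.MP_098a67_ag.C5

namespace Pool.Agent.Results.MP_098a67_ag.WideExact

/-- The maximal rank of complex `a × b × 3` tensors: exact values for wide formats. -/
theorem result (a b : ℕ) :
    ∃ m : ℕ, IsLeast {r : ℕ | ∀ X : Fin a → Fin b → Fin 3 → ℂ, ∃ (u : Fin r → Fin a → ℂ)
        (v : Fin r → Fin b → ℂ) (w : Fin r → Fin 3 → ℂ),
        ∀ i j k, X i j k = ∑ l, u l i * v l j * w l k} m ∧ m ≤ (3 * a + b) / 2 ∧
      (a ≤ b → b ≤ 3 * a → 2 * a ≤ b ∨ (b + 1 = 2 * a ∧ Even a) ∨ (b + 2 = 2 * a ∧ Odd a) →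
        m = (3 * a + b) / 2) :=
  Pool.Agent.P.MP_098a67_ag.E3.wide a b

end Pool.Agent.Results.MP_098a67_ag.WideExact
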